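import Pool.Agent.Helper8_HK.Stmt0
import Pool.Agent.Helper8_HK.Stmt1
import Pool.Agent.Helper8_HK.Stmt3

/-!
# Module CUT: forms with cuspidal cochain of residues are doubly cuspidal
-/

namespace Pool.Agent.HK.H20

open Polynomial Filter

/-- `x / n` lies in the maximal ideal when `deg x < deg n`. -/
theorem inO_div (hlau : LAUStmt) {F : Type} [Field F] (n x : F[X]) (hn : n.Monic)
    (hx : x.degree < n.degree) : InO 1 (emb F x / emb F n) := by
  obtain ⟨l1, l2, l3, l4, l5, l6, l7, l8, l9, l10, l11, l12, l13⟩ := hlau F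
  obtain ⟨u, hu, hu0, hu1⟩ := l13 n hn
  have hx1 : InO (1 - (n.natDegree : ℤ)) (emb F x) := by
    intro i hi
    obtain ⟨j, hj⟩ : ∃ j : ℕ, i = -(j : ℤ) := ⟨(-i).toNat, by omega⟩
    rw [hj, l1]
    apply Polynomial.coeff_eq_zero_of_degree_lt
    refine lt_of_lt_of_le hx ?_
    refine Polynomial.degree_le_natDegree.trans ?_
    exact_mod_cast (by omega : n.natDegree ≤ j)
  have hu2 : HahnSeries.coeff u 0 ≠ 0 := by
    rw [hu1]
    exact one_ne_zero
  have h3 := (l10 u hu0 hu2).1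
  have h4 := (l8 _ _ _ _ hx1 h3).1
  rw [add_zero] at h4
  have h5 : emb F x / emb F n = (unif F) ^ (n.natDegree : ℤ) * (emb F x * u⁻¹) := by
    rw [hu, div_eq_mul_inv, mul_inv, zpow_neg, inv_inv]
    ring
  rw [h5]
  intro i hi
  rw [l7]
  exact h4 _ (by omega)

/-- Conjugates of the translations. -/
theorem conj_mem {F : Type} [Field F] (n : F[X]) (γ δ : GLA F) (x : F[X])
    (h00 : δ 0 0 = 1) (h01 : δ 0 1 = x) (h10 : δ 1 0 = 0) (h11 : δ 1 1 = 1)
    (hx : n ∣ γ 1 0 ∨ n ∣ x) : γ * δ * γ⁻¹ ∈ Gam0 n := by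
  show n ∣ (γ * δ * γ⁻¹) 1 0
  set ε := γ * δ * γ⁻¹ with hε
  have h1 : ε * γ = γ * δ := by
    rw [hε, inv_mul_cancel_right]
  have e0 := congrArg (fun g : GLA F => g 1 0) h1
  have e1 := congrArg (fun g : GLA F => g 1 1) h1
  simp only [Matrix.GeneralLinearGroup.coe_mul, Matrix.mul_apply, Fin.sum_univ_two] at e0 e1
  rw [h00, h10] at e0
  rw [h01, h11] at e1
  have hdet : IsUnit (γ 0 0 * γ 1 1 - γ 0 1 * γ 1 0) := by
    have h2 := (Matrix.isUnit_iff_isUnit_det (γ : Matrix (Fin 2) (Fin 2) F[X])).1 γ.isUnit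
    rwa [Matrix.det_fin_two] at h2
  have h3 : ε 1 0 * (γ 0 0 * γ 1 1 - γ 0 1 * γ 1 0) = -(γ 1 0 * γ 1 0 * x) := by
    linear_combination (γ 1 1) * e0 - (γ 1 0) * e1
  have h4 : n ∣ ε 1 0 * (γ 0 0 * γ 1 1 - γ 0 1 * γ 1 0) := by
    rw [h3, dvd_neg]
    rcases hx with h | h
    · exact Dvd.dvd.mul_right (Dvd.dvd.mul_right h _) _
    · exact Dvd.dvd.mul_left h _
  exact (IsUnit.dvd_mul_right hdet).1 h4

theorem cut (hexp : EXPStmt) (hkha : KHAStmt) (hcos : COSStmt) (hsla : SLAStmt)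
    (hmtx : MTXStmt) (hval : VALStmt) (hhol : HOLStmt) (hlau : LAUStmt) : CUTStmt := by
  classical
  intro F _ _ C _ _ _ _ ι ρ hctx n hn hirr f B hoff hholo hbdd hmod hcusp
  obtain ⟨m1, m2, m3, m4, m5, m6, m7, m8, m9, m10, m11, m12, m13, m14, m15, m16, m17⟩ := hmtx F
  obtain ⟨s1, s2, s3, s4, s5, s6⟩ := (hsla F C ι hctx.ok).2 f hoff
  obtain ⟨k1, k2, k3, k4⟩ := (hkha F C ι ρ hctx).1 f hoff hholo
  have hn0 : n ≠ 0 := hn.ne_zero
  have hen : emb F n ≠ 0 := by
    intro h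
    have := (hlau F).2.2.2.2.2.2.2.2.2.2.2.1 n (by
      rw [h]
      intro i _
      exact HahnSeries.coeff_zero)
    exact hn0 this
  have hun : (unif F) ≠ 0 := (hlau F).2.2.2.2.2.1
  refine ⟨hoff, hholo, hmod, fun γ => ?_⟩
  set b : F[X] := if n ∣ γ 1 0 then 1 else n with hb
  have hb0 : b ≠ 0 := by
    rw [hb]
    split_ifs
    · exact one_ne_zero
    · exact hn0
  have hper : ∀ a : F[X], slash ι (mat 1 (emb F (b * a)) 0 1) (slash ι (toK γ) f) =
      slash ι (toK γ) f := by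
    intro a
    obtain ⟨δ, hδ, hδ'⟩ := m14 (b * a) n
    rw [← hδ', ← s2, ← map_mul]
    have hdet1 : (1 : Kinf F) * 1 - emb F (b * a) * 0 ≠ 0 := by simp
    obtain ⟨q00, q01, q10, q11⟩ := m1 1 (emb F (b * a)) 0 1 hdet1
    obtain ⟨t00, t01, t10, t11⟩ := m12 δ
    have hinj : ∀ y : F[X], emb F y = 0 → y = 0 := by
      intro y hy
      apply (hlau F).2.2.2.2.2.2.2.2.2.2.2.1 y
      rw [hy]
      intro i _
      exact HahnSeries.coeff_zero
    have hinj' : ∀ y y' : F[X], emb F y = emb F y' → y = y' := by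
      intro y y' h
      have := hinj (y - y') (by rw [map_sub, h, sub_self])
      exact sub_eq_zero.1 this
    have d00 : δ 0 0 = 1 := hinj' _ _ (by rw [← t00, hδ', q00, map_one])
    have d01 : δ 0 1 = b * a := hinj' _ _ (by rw [← t01, hδ', q01])
    have d10 : δ 1 0 = 0 := hinj' _ _ (by rw [← t10, hδ', q10, map_zero])
    have d11 : δ 1 1 = 1 := hinj' _ _ (by rw [← t11, hδ', q11, map_one])
    have hmem : γ * δ * γ⁻¹ ∈ Gam0 n := by
      apply conj_mem n γ δ (b * a) d00 d01 d10 d11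
      by_cases h : n ∣ γ 1 0
      · exact Or.inl h
      · right
        rw [hb, if_neg h]
        exact Dvd.intro _ rfl
    have e : γ * δ = (γ * δ * γ⁻¹) * γ := by rw [inv_mul_cancel_right]
    rw [e, map_mul, s2, hmod _ hmem]
  obtain ⟨m, hm1, hm2, -⟩ := hexp F C ι ρ hctx (slash ι (toK γ) f) B b (s1 _)
    ((hhol F C ι hctx.ok f hholo).1 _) (s6 B _ hbdd) hb0 hper
  have hm0 : m 0 = 0 := by
    rw [hm2, k2]
    by_cases h : n ∣ γ 1 0
    · have hb1 : b = 1 := by rw [hb, if_pos h]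
      rw [hb1, map_one, mul_one, hcusp.invt γ h]
      have h1 := hcusp.rinf
      unfold val at h1
      rwa [zpow_one] at h1
    · have hb1 : b = n := by rw [hb, if_neg h]
      rw [hb1]
      rcases (hcos F n hn hirr).1 γ with h1 | ⟨δ, hδ, x, hx, h1⟩
      · exact absurd h1 h
      · rw [h1, mul_assoc, hcusp.invt δ hδ]
        have hd1 : (0 : Kinf F) * emb F x - -1 * 1 ≠ 0 := by simp
        have hd2 : (unif F) * emb F n * 1 - 0 * 0 ≠ 0 := by
          simp [hun, hen]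
        have hd3 : (0 : Kinf F) * 0 - -1 * emb F n ≠ 0 := by
          simp [hen]
        have hd4 : (unif F) ^ (1 : ℤ) * 1 - (emb F x / emb F n) * 0 ≠ 0 := by
          simp [hun]
        have h2 : (mat 0 (-1) 1 (emb F x) : GLK F) * mat (unif F * emb F n) 0 0 1 =
            Wmat n * mat ((unif F) ^ (1 : ℤ)) (emb F x / emb F n) 0 1 := by
          unfold Wmat
          rw [m3 _ _ _ _ _ _ _ _ hd1 hd2, m3 _ _ _ _ _ _ _ _ hd3 hd4]
          have e1 : emb F n * (emb F x / emb F n) = emb F x := mul_div_cancel₀ _ hen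
          congr 1
          · ring
          · ring
          · rw [zpow_one]; ring
          · rw [e1]; ring
        rw [h2]
        have h3 := (hval F C (kap ι ρ f) hcusp.harm).1 (Wmat n) 1 (emb F x / emb F n) 0 (by
          rw [sub_zero]
          exact inO_div hlau n x hn hx)
        rw [h3]
        exact hcusp.rzero
  refine ⟨fun i => if i = 0 then 0 else m (i - 1), by simp, by simp [hm0], hm1⟩

end Pool.Agent.HK.H20
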