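import Pool.Agent.Helper8_HK.Stmt0
import Pool.Agent.Helper8_HK.Stmt3

/-!
# Module LIP: Lipschitz functions
-/

namespace Pool.Agent.HK.H20

open Polynomial Filter

section

variable {F : Type} [Field F] [Fintype F] {C : Type} [NormedField C]

theorem lip_add {ι : Kinf F →+* C} {g g' : Kinf F → C} (h : LipK ι g) (h' : LipK ι g') :
    LipK ι (fun x => g x + g' x) := by
  obtain ⟨L, hL⟩ := h
  obtain ⟨L', hL'⟩ := h'
  refine ⟨L + L', fun x y hx hy => ?_⟩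
  have e : (g x + g' x) - (g y + g' y) = (g x - g y) + (g' x - g' y) := by ring
  show ‖(g x + g' x) - (g y + g' y)‖ ≤ _
  rw [e, add_mul]
  exact (norm_add_le _ _).trans (add_le_add (hL x y hx hy) (hL' x y hx hy))

theorem lip_const (ι : Kinf F →+* C) (c : C) : LipK ι (fun _ : Kinf F => c) :=
  ⟨0, fun x y _ _ => by simp⟩

theorem inO_zero (k : ℤ) : InO k (0 : Kinf F) := by
  intro i _
  exact HahnSeries.coeff_zero

theorem lip_bdd {ι : Kinf F →+* C} (hb : ∀ x : Kinf F, InO 1 x → ‖ι x‖ ≤ 1)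
    {g : Kinf F → C} (h : LipK ι g) : ∃ G : ℝ, 0 ≤ G ∧ ∀ x, InO 1 x → ‖g x‖ ≤ G := by
  obtain ⟨L, hL⟩ := h
  refine ⟨‖g 0‖ + |L|, by positivity, fun x hx => ?_⟩
  have h1 := hL x 0 hx (inO_zero 1)
  rw [sub_zero] at h1
  have h2 : L * ‖ι x‖ ≤ |L| * 1 :=
    mul_le_mul (le_abs_self L) (hb x hx) (norm_nonneg _) (abs_nonneg L)
  have h3 : ‖g x‖ ≤ ‖g x - g 0‖ + ‖g 0‖ := by
    have := norm_add_le (g x - g 0) (g 0)
    rwa [sub_add_cancel] at this
  linarith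

theorem lip_mul {ι : Kinf F →+* C} (hb : ∀ x : Kinf F, InO 1 x → ‖ι x‖ ≤ 1)
    {g g' : Kinf F → C} (h : LipK ι g) (h' : LipK ι g') : LipK ι (fun x => g x * g' x) := by
  obtain ⟨G, hG0, hG⟩ := lip_bdd hb h
  obtain ⟨G', hG0', hG'⟩ := lip_bdd hb h'
  obtain ⟨L, hL⟩ := h
  obtain ⟨L', hL'⟩ := h'
  refine ⟨G * |L'| + |L| * G', fun x y hx hy => ?_⟩
  have e : g x * g' x - g y * g' y = g x * (g' x - g' y) + (g x - g y) * g' y := by ring
  show ‖g x * g' x - g y * g' y‖ ≤ _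
  rw [e]
  refine (norm_add_le _ _).trans ?_
  rw [norm_mul, norm_mul, add_mul]
  have hn : 0 ≤ ‖ι (x - y)‖ := norm_nonneg _
  have h1 : ‖g x‖ * ‖g' x - g' y‖ ≤ G * (|L'| * ‖ι (x - y)‖) :=
    mul_le_mul (hG x hx) ((hL' x y hx hy).trans (mul_le_mul_of_nonneg_right (le_abs_self _) hn))
      (norm_nonneg _) hG0
  have h2 : ‖g x - g y‖ * ‖g' y‖ ≤ (|L| * ‖ι (x - y)‖) * G' :=
    mul_le_mul ((hL x y hx hy).trans (mul_le_mul_of_nonneg_right (le_abs_self _) hn)) (hG' y hy)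
      (norm_nonneg _) (by positivity)
  calc ‖g x‖ * ‖g' x - g' y‖ + ‖g x - g y‖ * ‖g' y‖
      ≤ G * (|L'| * ‖ι (x - y)‖) + (|L| * ‖ι (x - y)‖) * G' := add_le_add h1 h2
    _ = G * |L'| * ‖ι (x - y)‖ + |L| * G' * ‖ι (x - y)‖ := by ring

end

theorem lip (_hlau : LAUStmt) (hima : IMAStmt) (htbb : TBBStmt) : LIPStmt := by
  intro F _ _ C _ _ _ _ ι hok
  have hI := hima F C ι hok
  have hq : (1 : ℝ) ≤ ((Fintype.card F : ℕ) : ℝ) := by
    exact_mod_cast (Fintype.card_pos : 0 < Fintype.card F)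
  have hb : ∀ x : Kinf F, InO 1 x → ‖ι x‖ ≤ 1 := by
    intro x hx
    refine (hI.2.1 x 1 hx).trans ?_
    rw [zpow_neg, zpow_one]
    exact inv_le_one_of_one_le₀ hq
  refine ⟨fun g g' h h' => ⟨lip_add h h', lip_mul hb h h'⟩, fun c => lip_const ι c,
    fun g j h => ?_, fun e he a => ?_⟩
  · induction j with
    | zero => simpa using lip_const ι 1
    | succ j ih =>
      have h1 := lip_mul hb ih h
      simpa [pow_succ] using h1
  · refine ⟨‖ι a‖, fun x y hx hy => ?_⟩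
    have hsub : e (ι (a * x)) - e (ι (a * y)) = e (ι (a * (x - y))) := by
      have h1 := he.add (ι (a * (x - y))) (ι (a * y))
      rw [← map_add, ← mul_add, sub_add_cancel] at h1
      rw [h1]
      ring
    show ‖e (ι (a * x)) - e (ι (a * y))‖ ≤ _
    rw [hsub, ← norm_mul, ← map_mul]
    by_cases hz : ‖ι (a * (x - y))‖ < 1
    · rw [he.nrm _ hz]
    · have h2 := (htbb F C ι hok e he).1 (a * (x - y))
      have h3 : (((Fintype.card F : ℕ) : ℝ))⁻¹ ≤ 1 := inv_le_one_of_one_le₀ hq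
      linarith [not_lt.1 hz]

end Pool.Agent.HK.H20
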